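import Pool.Agent.Q258.EqStar.Defs

set_option autoImplicit false

namespace Pool.Agent.Q258.EqStar

lemma count_range (r : ℕ) (hr : r < 4) (q : ℕ) :
    ∑ j ∈ Finset.range (4 * q), (if j % 4 = r then 1 else 0) = q := by
  induction q with
  | zero => simp
  | succ q ih =>
    rw [show 4 * (q + 1) = 4 * q + 1 + 1 + 1 + 1 by ring, Finset.sum_range_succ,
      Finset.sum_range_succ, Finset.sum_range_succ, Finset.sum_range_succ, ih]
    have e0 : (4 * q) % 4 = 0 := by omega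
    have e1 : (4 * q + 1) % 4 = 1 := by omega
    have e2 : (4 * q + 1 + 1) % 4 = 2 := by omega
    have e3 : (4 * q + 1 + 1 + 1) % 4 = 3 := by omega
    rw [e0, e1, e2, e3]
    split_ifs <;> omega

lemma count_ge (r : ℕ) (hr : r < 4) (m : ℕ) :
    m ≤ 4 * (∑ j : Fin m, (if j.val % 4 = r then 1 else 0)) + 3 := by
  rw [Fin.sum_univ_eq_sum_range (fun j => if j % 4 = r then 1 else 0) m]
  have h1 : ∑ j ∈ Finset.range (4 * (m / 4)), (if j % 4 = r then 1 else 0) ≤
      ∑ j ∈ Finset.range m, (if j % 4 = r then 1 else 0) := by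
    apply Finset.sum_le_sum_of_subset
    apply Finset.range_mono
    omega
  rw [count_range r hr] at h1
  omega

variable {ι : Type} [Fintype ι] [DecidableEq ι] {m : ι → ℕ}

/-- lists of the leaves outside K -/
def qlist (t : ℕ) : Finset ℕ :=
  if t % 4 = 0 then {3, 1} else if t % 4 = 1 then {3, 2} else if t % 4 = 2 then {4, 1} else {4, 2}

/-- the list assignment of the adversary -/
def advL (K : Finset ι) : (Σ i : ι, Option (Fin (m i))) → Finset ℕ
  | ⟨i, none⟩ => if i ∈ K then {1, 2} else {3, 4}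
  | ⟨i, some j⟩ => if i ∈ K then {1, 2} else qlist j.val

theorem adv (K : Finset ι) (h : EquitablyChoosable 2 (starUnion m)) : ∃ ε : ι → Bool,
      2 * |∑ i ∈ K, (if ε i then ((m i : ℤ) - 1) else -((m i : ℤ) - 1))| ≤
        ∑ i ∈ Kᶜ, ((m i : ℤ) + 5) + 2 := by
  obtain ⟨c, hc1, hc2, hc3⟩ := h (advL K) (by
    rintro ⟨i, _ | j⟩
    · simp only [advL]
      split_ifs <;> rfl
    · simp only [advL]
      split_ifs
      · rfl
      · unfold qlist
        split_ifs <;> rfl)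
  have hadj : ∀ i (j : Fin (m i)), c ⟨i, none⟩ ≠ c ⟨i, some j⟩ := fun i j =>
    hc2 _ _ ((adj_iff _ _).mpr ⟨i, j, Or.inl ⟨rfl, rfl⟩⟩)
  have hcap : ∀ x, 2 * cls c x ≤ ∑ i, (m i + 1) + 1 := by
    intro x
    have := hc3 x
    rw [card_V] at this
    unfold cls
    omega
  -- general lower bound
  have hK : ∀ i ∈ K, (c ⟨i, none⟩ = 1 ∧ ∀ j : Fin (m i), c ⟨i, some j⟩ = 2) ∨
      (c ⟨i, none⟩ = 2 ∧ ∀ j : Fin (m i), c ⟨i, some j⟩ = 1) := by
    intro i hi
    have h1 := hc1 ⟨i, none⟩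
    simp only [advL, if_pos hi, Finset.mem_insert, Finset.mem_singleton] at h1
    have h2 : ∀ j : Fin (m i), c ⟨i, some j⟩ = 1 ∨ c ⟨i, some j⟩ = 2 := by
      intro j
      have h3 := hc1 ⟨i, some j⟩
      simpa only [advL, if_pos hi, Finset.mem_insert, Finset.mem_singleton] using h3
    rcases h1 with h1 | h1
    · left
      refine ⟨h1, fun j => ?_⟩
      have := hadj i j
      rcases h2 j with h | h
      · omega
      · exact h
    · right
      refine ⟨h1, fun j => ?_⟩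
      have := hadj i j
      rcases h2 j with h | h
      · exact h
      · omega
  have hnK : ∀ i ∉ K, ∀ x, (x = 1 ∨ x = 2) →
      m i ≤ 4 * (∑ j : Fin (m i), (if c ⟨i, some j⟩ = x then 1 else 0)) + 3 := by
    intro i hi x hx
    have h1 := hc1 ⟨i, none⟩
    simp only [advL, if_neg hi, Finset.mem_insert, Finset.mem_singleton] at h1
    have h2 : ∀ j : Fin (m i), c ⟨i, some j⟩ ∈ qlist j.val := by
      intro j
      have h3 := hc1 ⟨i, some j⟩
      simpa only [advL, if_neg hi] using h3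
    obtain ⟨r, hr, hrx⟩ : ∃ r < 4, ∀ j : Fin (m i), j.val % 4 = r → c ⟨i, some j⟩ = x := by
      rcases h1 with h1 | h1 <;> rcases hx with rfl | rfl
      · refine ⟨0, by norm_num, fun j hj => ?_⟩
        have h3 := h2 j
        have h4 := hadj i j
        unfold qlist at h3
        rw [if_pos hj] at h3
        simp only [Finset.mem_insert, Finset.mem_singleton] at h3
        omega
      · refine ⟨1, by norm_num, fun j hj => ?_⟩
        have h3 := h2 j
        have h4 := hadj i j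
        unfold qlist at h3
        rw [if_neg (by omega), if_pos hj] at h3
        simp only [Finset.mem_insert, Finset.mem_singleton] at h3
        omega
      · refine ⟨2, by norm_num, fun j hj => ?_⟩
        have h3 := h2 j
        have h4 := hadj i j
        unfold qlist at h3
        rw [if_neg (by omega), if_neg (by omega), if_pos hj] at h3
        simp only [Finset.mem_insert, Finset.mem_singleton] at h3
        omega
      · refine ⟨3, by norm_num, fun j hj => ?_⟩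
        have h3 := h2 j
        have h4 := hadj i j
        unfold qlist at h3
        rw [if_neg (by omega), if_neg (by omega), if_neg (by omega)] at h3
        simp only [Finset.mem_insert, Finset.mem_singleton] at h3
        omega
    refine (count_ge r hr (m i)).trans ?_
    have : ∑ j : Fin (m i), (if j.val % 4 = r then 1 else 0) ≤
        ∑ j : Fin (m i), (if c ⟨i, some j⟩ = x then 1 else 0) := by
      refine Finset.sum_le_sum fun j _ => ?_
      by_cases h5 : j.val % 4 = r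
      · rw [if_pos h5, if_pos (hrx j h5)]
      · rw [if_neg h5]; exact Nat.zero_le _
    omega
  refine ⟨fun i => decide (c ⟨i, none⟩ = 2), ?_⟩
  have hN : (∑ i, ((m i : ℤ) + 1)) = ∑ i ∈ K, ((m i : ℤ) + 1) + ∑ i ∈ Kᶜ, ((m i : ℤ) + 1) :=
    (Finset.sum_add_sum_compl K _).symm
  have hcap' : ∀ x, 4 * (cls c x : ℤ) ≤ 2 * (∑ i ∈ K, ((m i : ℤ) + 1) +
      ∑ i ∈ Kᶜ, ((m i : ℤ) + 1)) + 2 := by
    intro x
    rw [← hN]
    have := hcap x
    have h2 : 2 * (cls c x : ℤ) ≤ ∑ i, ((m i : ℤ) + 1) + 1 := by exact_mod_cast this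
    linarith
  have hout : ∀ x, (x = 1 ∨ x = 2) → ∑ i ∈ Kᶜ, ((m i : ℤ) - 3) ≤
      4 * ∑ i ∈ Kᶜ, (((if c ⟨i, none⟩ = x then 1 else 0) +
        ∑ j : Fin (m i), (if c ⟨i, some j⟩ = x then 1 else 0) : ℕ) : ℤ) := by
    intro x hx
    rw [Finset.mul_sum]
    refine Finset.sum_le_sum fun i hi => ?_
    rw [Finset.mem_compl] at hi
    have h1 := hnK i hi x hx
    push_cast
    have h2 : (m i : ℤ) ≤ 4 * (∑ j : Fin (m i), (if c ⟨i, some j⟩ = x then 1 else 0 : ℤ)) + 3 := by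
      exact_mod_cast h1
    have h3 : (0 : ℤ) ≤ (if c ⟨i, none⟩ = x then 1 else 0) := by split_ifs <;> norm_num
    linarith
  have hcls : ∀ x, (cls c x : ℤ) = ∑ i ∈ K, (((if c ⟨i, none⟩ = x then 1 else 0) +
        ∑ j : Fin (m i), (if c ⟨i, some j⟩ = x then 1 else 0) : ℕ) : ℤ) +
      ∑ i ∈ Kᶜ, (((if c ⟨i, none⟩ = x then 1 else 0) +
        ∑ j : Fin (m i), (if c ⟨i, some j⟩ = x then 1 else 0) : ℕ) : ℤ) := by
    intro x
    rw [Finset.sum_add_sum_compl, cls_eq]
    push_cast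
    rfl
  have h1 := hcap' 1
  have h2 := hcap' 2
  rw [hcls] at h1 h2
  have h3 := hout 1 (Or.inl rfl)
  have h4 := hout 2 (Or.inr rfl)
  have hK1 : ∑ i ∈ K, (((if c ⟨i, none⟩ = 1 then 1 else 0) +
        ∑ j : Fin (m i), (if c ⟨i, some j⟩ = 1 then 1 else 0) : ℕ) : ℤ) * 2 =
      ∑ i ∈ K, ((m i : ℤ) + 1) +
      ∑ i ∈ K, (if decide (c ⟨i, none⟩ = 2) then ((m i : ℤ) - 1) else -((m i : ℤ) - 1)) := by
    rw [← Finset.sum_add_distrib]
    refine Finset.sum_congr rfl fun i hi => ?_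
    rcases hK i hi with ⟨e1, e2⟩ | ⟨e1, e2⟩
    · simp only [e1, e2]
      simp
      try ring
    · simp only [e1, e2]
      simp
      ring
  have hK2 : ∑ i ∈ K, (((if c ⟨i, none⟩ = 2 then 1 else 0) +
        ∑ j : Fin (m i), (if c ⟨i, some j⟩ = 2 then 1 else 0) : ℕ) : ℤ) * 2 =
      ∑ i ∈ K, ((m i : ℤ) + 1) -
      ∑ i ∈ K, (if decide (c ⟨i, none⟩ = 2) then ((m i : ℤ) - 1) else -((m i : ℤ) - 1)) := by
    rw [← Finset.sum_sub_distrib]
    refine Finset.sum_congr rfl fun i hi => ?_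
    rcases hK i hi with ⟨e1, e2⟩ | ⟨e1, e2⟩
    · simp only [e1, e2]
      simp
      ring
    · simp only [e1, e2]
      simp
  rw [← Finset.sum_mul] at hK1 hK2
  set δ : ℤ := ∑ i ∈ K, (if decide (c ⟨i, none⟩ = 2) then ((m i : ℤ) - 1) else -((m i : ℤ) - 1))
    with hδ
  have e1 : ∑ i ∈ Kᶜ, ((m i : ℤ) - 3) = ∑ i ∈ Kᶜ, (m i : ℤ) - 3 * (Kᶜ.card : ℤ) := by
    rw [Finset.sum_sub_distrib]; simp [mul_comm]
  have e2 : ∑ i ∈ Kᶜ, ((m i : ℤ) + 1) = ∑ i ∈ Kᶜ, (m i : ℤ) + (Kᶜ.card : ℤ) := by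
    rw [Finset.sum_add_distrib]; simp
  have e3 : ∑ i ∈ Kᶜ, ((m i : ℤ) + 5) = ∑ i ∈ Kᶜ, (m i : ℤ) + 5 * (Kᶜ.card : ℤ) := by
    rw [Finset.sum_add_distrib]; simp [mul_comm]
  rw [e1] at h3 h4
  rw [e2] at h1 h2
  rw [e3]
  have habs : |δ| ≤ (∑ i ∈ Kᶜ, (m i : ℤ) + 5 * (Kᶜ.card : ℤ) + 2) / 2 := by
    rw [abs_le]
    constructor
    · omega
    · omega
  omega

end Pool.Agent.Q258.EqStar
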