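import Pool.Agent.Q258.EqStar.Ext

set_option autoImplicit false

namespace Pool.Agent.Q258.EqStar

variable {ι : Type} [Fintype ι] [DecidableEq ι] {m : ι → ℕ}

lemma two_of_card (A : Finset ℕ) (hA : A.card = 2) (a b c : ℕ) (ha : a ∈ A) (hb : b ∈ A)
    (hc : c ∈ A) : a = b ∨ a = c ∨ b = c := by
  obtain ⟨p, q, hpq, rfl⟩ := Finset.card_eq_two.mp hA
  simp only [Finset.mem_insert, Finset.mem_singleton] at ha hb hc
  rcases ha with rfl | rfl <;> rcases hb with rfl | rfl <;> rcases hc with rfl | rfl <;> simp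

/-- same option, two colours -/
lemma fc_same (L : (Σ i : ι, Option (Fin (m i))) → Finset ℕ) (hL : ∀ v, (L v).card = 2)
    (i : ι) (g x y : ℕ) (hxy : x ≠ y) : fc L i g x + fc L i g y ≤ m i + 1 := by
  unfold fc
  have h1 : (if g = x then 1 else 0) + (if g = y then 1 else 0) ≤ 1 := by
    split_ifs <;> omega
  have h2 : ∑ j : Fin (m i),
      (if g ∈ L ⟨i, some j⟩ ∧ x ∈ L ⟨i, some j⟩ ∧ x ≠ g then 1 else 0) +
      ∑ j : Fin (m i),
      (if g ∈ L ⟨i, some j⟩ ∧ y ∈ L ⟨i, some j⟩ ∧ y ≠ g then 1 else 0) ≤ m i := by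
    rw [← Finset.sum_add_distrib]
    calc _ ≤ ∑ _j : Fin (m i), 1 := by
          refine Finset.sum_le_sum fun j _ => ?_
          by_cases h3 : g ∈ L ⟨i, some j⟩ ∧ x ∈ L ⟨i, some j⟩ ∧ x ≠ g
          · by_cases h4 : g ∈ L ⟨i, some j⟩ ∧ y ∈ L ⟨i, some j⟩ ∧ y ≠ g
            · rcases two_of_card _ (hL ⟨i, some j⟩) g x y h3.1 h3.2.1 h4.2.1 with h | h | h
              · exact absurd h.symm h3.2.2
              · exact absurd h.symm h4.2.2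
              · exact absurd h hxy
            · rw [if_pos h3, if_neg h4]
          · rw [if_neg h3]; split_ifs <;> omega
      _ = m i := by simp
  omega

/-- different options, centre list does not contain x -/
lemma fc_diff (L : (Σ i : ι, Option (Fin (m i))) → Finset ℕ) (hL : ∀ v, (L v).card = 2)
    (i : ι) (g g' x y : ℕ) (hxy : x ≠ y) (hg : g ∈ L ⟨i, none⟩) (hg' : g' ∈ L ⟨i, none⟩)
    (hgg : g ≠ g') (hx : x ∉ L ⟨i, none⟩) : fc L i g x + fc L i g' y ≤ m i + 1 := by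
  unfold fc
  have h0 : g ≠ x := fun h => hx (h ▸ hg)
  have h1 : (if g = x then 1 else 0) + (if g' = y then 1 else 0) ≤ 1 := by
    rw [if_neg h0]; split_ifs <;> omega
  have h2 : ∑ j : Fin (m i),
      (if g ∈ L ⟨i, some j⟩ ∧ x ∈ L ⟨i, some j⟩ ∧ x ≠ g then 1 else 0) +
      ∑ j : Fin (m i),
      (if g' ∈ L ⟨i, some j⟩ ∧ y ∈ L ⟨i, some j⟩ ∧ y ≠ g' then 1 else 0) ≤ m i := by
    rw [← Finset.sum_add_distrib]
    calc _ ≤ ∑ _j : Fin (m i), 1 := by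
          refine Finset.sum_le_sum fun j _ => ?_
          by_cases h3 : g ∈ L ⟨i, some j⟩ ∧ x ∈ L ⟨i, some j⟩ ∧ x ≠ g
          · by_cases h4 : g' ∈ L ⟨i, some j⟩ ∧ y ∈ L ⟨i, some j⟩ ∧ y ≠ g'
            · rcases two_of_card _ (hL ⟨i, some j⟩) g g' x h3.1 h4.1 h3.2.1 with h | h | h
              · exact absurd h hgg
              · exact absurd h h0
              · exact absurd (h ▸ hg') hx
            · rw [if_pos h3, if_neg h4]
          · rw [if_neg h3]; split_ifs <;> omega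
      _ = m i := by simp
  omega

/-- total over both options for a centre whose list is not {x, y} -/
lemma fc_four (L : (Σ i : ι, Option (Fin (m i))) → Finset ℕ) (hL : ∀ v, (L v).card = 2)
    (i : ι) (a b x y : ℕ) (hxy : x ≠ y) (ha : a ∈ L ⟨i, none⟩) (hb : b ∈ L ⟨i, none⟩)
    (hab : a ≠ b) (hK : ¬ (x ∈ L ⟨i, none⟩ ∧ y ∈ L ⟨i, none⟩)) :
    fc L i a x + fc L i a y + fc L i b x + fc L i b y ≤ m i + 1 := by
  unfold fc
  have hc1 : ¬ (a = x ∧ b = y) := fun h => hK ⟨h.1 ▸ ha, h.2 ▸ hb⟩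
  have hc2 : ¬ (a = y ∧ b = x) := fun h => hK ⟨h.2 ▸ hb, h.1 ▸ ha⟩
  have h1 : (if a = x then 1 else 0) + (if a = y then 1 else 0) + (if b = x then 1 else 0) +
      (if b = y then 1 else 0) ≤ 1 := by
    split_ifs <;> omega
  have h2 : ∑ j : Fin (m i),
      (if a ∈ L ⟨i, some j⟩ ∧ x ∈ L ⟨i, some j⟩ ∧ x ≠ a then 1 else 0) +
      ∑ j : Fin (m i),
      (if a ∈ L ⟨i, some j⟩ ∧ y ∈ L ⟨i, some j⟩ ∧ y ≠ a then 1 else 0) +
      ∑ j : Fin (m i),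
      (if b ∈ L ⟨i, some j⟩ ∧ x ∈ L ⟨i, some j⟩ ∧ x ≠ b then 1 else 0) +
      ∑ j : Fin (m i),
      (if b ∈ L ⟨i, some j⟩ ∧ y ∈ L ⟨i, some j⟩ ∧ y ≠ b then 1 else 0) ≤ m i := by
    rw [← Finset.sum_add_distrib, ← Finset.sum_add_distrib, ← Finset.sum_add_distrib]
    calc _ ≤ ∑ _j : Fin (m i), 1 := by
          refine Finset.sum_le_sum fun j _ => ?_
          obtain ⟨p, q, hpq, hpq'⟩ := Finset.card_eq_two.mp (hL ⟨i, some j⟩)
          rw [hpq']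
          simp only [Finset.mem_insert, Finset.mem_singleton]
          split_ifs <;> omega
      _ = m i := by simp
  omega

/-- four colours -/
lemma fc_three (L : (Σ i : ι, Option (Fin (m i))) → Finset ℕ) (hL : ∀ v, (L v).card = 2)
    (i : ι) (g₁ g₂ g₃ g₄ x₁ x₂ x₃ x₄ : ℕ) (h₁ : g₁ ∈ L ⟨i, none⟩) (h₂ : g₂ ∈ L ⟨i, none⟩)
    (h₃ : g₃ ∈ L ⟨i, none⟩) (h₄ : g₄ ∈ L ⟨i, none⟩)
    (h12 : x₁ ≠ x₂) (h13 : x₁ ≠ x₃) (h14 : x₁ ≠ x₄) (h23 : x₂ ≠ x₃) (h24 : x₂ ≠ x₄)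
    (h34 : x₃ ≠ x₄) :
    fc L i g₁ x₁ + fc L i g₂ x₂ + fc L i g₃ x₃ + fc L i g₄ x₄ ≤ 2 * (m i + 1) := by
  unfold fc
  have h1 : (if g₁ = x₁ then 1 else 0) + (if g₂ = x₂ then 1 else 0) +
      (if g₃ = x₃ then 1 else 0) + (if g₄ = x₄ then 1 else 0) ≤ 2 := by
    obtain ⟨p, q, hpq, hpq'⟩ := Finset.card_eq_two.mp (hL ⟨i, none⟩)
    rw [hpq'] at h₁ h₂ h₃ h₄
    simp only [Finset.mem_insert, Finset.mem_singleton] at h₁ h₂ h₃ h₄
    split_ifs <;> omega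
  have h2 : ∑ j : Fin (m i),
      (if g₁ ∈ L ⟨i, some j⟩ ∧ x₁ ∈ L ⟨i, some j⟩ ∧ x₁ ≠ g₁ then 1 else 0) +
      ∑ j : Fin (m i),
      (if g₂ ∈ L ⟨i, some j⟩ ∧ x₂ ∈ L ⟨i, some j⟩ ∧ x₂ ≠ g₂ then 1 else 0) +
      ∑ j : Fin (m i),
      (if g₃ ∈ L ⟨i, some j⟩ ∧ x₃ ∈ L ⟨i, some j⟩ ∧ x₃ ≠ g₃ then 1 else 0) +
      ∑ j : Fin (m i),
      (if g₄ ∈ L ⟨i, some j⟩ ∧ x₄ ∈ L ⟨i, some j⟩ ∧ x₄ ≠ g₄ then 1 else 0) ≤ 2 * m i := by
    rw [← Finset.sum_add_distrib, ← Finset.sum_add_distrib, ← Finset.sum_add_distrib]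
    calc _ ≤ ∑ _j : Fin (m i), 2 := by
          refine Finset.sum_le_sum fun j _ => ?_
          obtain ⟨p, q, hpq, hpq'⟩ := Finset.card_eq_two.mp (hL ⟨i, some j⟩)
          rw [hpq']
          simp only [Finset.mem_insert, Finset.mem_singleton]
          split_ifs <;> omega
      _ = 2 * m i := by simp [mul_comm]
  omega

end Pool.Agent.Q258.EqStar
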