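import Mathlib

set_option autoImplicit false

namespace Pool.Agent.Q258.EqStar

/-- the disjoint union of the stars with m i leaves: ⟨i, none⟩ is the centre of star i, the
⟨i, some j⟩ are its leaves -/
def starUnion {ι : Type} (m : ι → ℕ) : SimpleGraph (Σ i : ι, Option (Fin (m i))) :=
  SimpleGraph.fromRel (fun u v => ∃ (i : ι) (j : Fin (m i)), u = ⟨i, none⟩ ∧ v = ⟨i, some j⟩)

/-- every k-assignment has a proper list colouring which uses each colour at most ⌈|V|/k⌉ times -/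
def EquitablyChoosable {V : Type} [Fintype V] (k : ℕ) (G : SimpleGraph V) : Prop :=
  ∀ L : V → Finset ℕ, (∀ v, (L v).card = k) →
    ∃ c : V → ℕ, (∀ v, c v ∈ L v) ∧ (∀ u v, G.Adj u v → c u ≠ c v) ∧
      ∀ x : ℕ, (Finset.univ.filter (fun v => c v = x)).card ≤ (Fintype.card V + k - 1) / k

variable {ι : Type} {m : ι → ℕ}

lemma adj_iff (u v : Σ i : ι, Option (Fin (m i))) : (starUnion m).Adj u v ↔
    ∃ (i : ι) (j : Fin (m i)), (u = ⟨i, none⟩ ∧ v = ⟨i, some j⟩) ∨
      (v = ⟨i, none⟩ ∧ u = ⟨i, some j⟩) := by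
  unfold starUnion
  rw [SimpleGraph.fromRel_adj]
  constructor
  · rintro ⟨-, ⟨i, j, h⟩ | ⟨i, j, h⟩⟩
    · exact ⟨i, j, Or.inl h⟩
    · exact ⟨i, j, Or.inr h⟩
  · rintro ⟨i, j, h⟩
    refine ⟨?_, ?_⟩
    · rintro rfl
      rcases h with ⟨h1, h2⟩ | ⟨h1, h2⟩ <;>
      · rw [h1] at h2
        simp at h2
    · rcases h with h | h
      · exact Or.inl ⟨i, j, h⟩
      · exact Or.inr ⟨i, j, h⟩

section
variable [Fintype ι]

/-- number of vertices -/
lemma card_V : Fintype.card (Σ i : ι, Option (Fin (m i))) = ∑ i, (m i + 1) := by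
  rw [Fintype.card_sigma]
  simp

/-- size of a colour class -/
def cls (φ : (Σ i : ι, Option (Fin (m i))) → ℕ) (x : ℕ) : ℕ :=
  (Finset.univ.filter (fun v => φ v = x)).card

lemma cls_eq (φ : (Σ i : ι, Option (Fin (m i))) → ℕ) (x : ℕ) :
    cls φ x = ∑ i, ((if φ ⟨i, none⟩ = x then 1 else 0) +
      ∑ j : Fin (m i), (if φ ⟨i, some j⟩ = x then 1 else 0)) := by
  unfold cls
  rw [Finset.card_filter, Fintype.sum_sigma]
  refine Finset.sum_congr rfl fun i _ => ?_
  rw [Fintype.sum_option]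

lemma cls_add (φ : (Σ i : ι, Option (Fin (m i))) → ℕ) (x y : ℕ) (hxy : x ≠ y) :
    cls φ x + cls φ y ≤ ∑ i, (m i + 1) := by
  classical
  unfold cls
  rw [← Finset.card_union_of_disjoint, ← card_V]
  · exact Finset.card_le_univ _
  · rw [Finset.disjoint_left]
    intro v hv hv'
    simp only [Finset.mem_filter, Finset.mem_univ, true_and] at hv hv'
    exact hxy (hv ▸ hv')

end

end Pool.Agent.Q258.EqStar
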