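import Pool.Agent.Q258.EqStar.Defs

set_option autoImplicit false

namespace Pool.Agent.Q258.EqStar

variable {ι : Type} [Fintype ι] [DecidableEq ι] {m : ι → ℕ}

/-- contribution of star i to the colour x if the centre of the star gets the colour g: centre and
forced leaves -/
def fc (L : (Σ i : ι, Option (Fin (m i))) → Finset ℕ) (i : ι) (g x : ℕ) : ℕ :=
  (if g = x then 1 else 0) + ∑ j : Fin (m i),
    (if g ∈ L ⟨i, some j⟩ ∧ x ∈ L ⟨i, some j⟩ ∧ x ≠ g then 1 else 0)

/-- colourings with prescribed colours of the centres -/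
def Valid (L : (Σ i : ι, Option (Fin (m i))) → Finset ℕ) (g : ι → ℕ)
    (φ : (Σ i : ι, Option (Fin (m i))) → ℕ) : Prop :=
  (∀ i, φ ⟨i, none⟩ = g i) ∧
    ∀ i (j : Fin (m i)), φ ⟨i, some j⟩ ∈ L ⟨i, some j⟩ ∧ φ ⟨i, some j⟩ ≠ g i

lemma exists_valid (L : (Σ i : ι, Option (Fin (m i))) → Finset ℕ) (hL : ∀ v, (L v).card = 2)
    (g : ι → ℕ) : ∃ φ, Valid L g φ := by
  have h : ∀ v g', ∃ x ∈ L v, x ≠ g' := by
    intro v g'
    by_contra hcon
    push Not at hcon
    have h1 : L v ⊆ {g'} := fun x hx => Finset.mem_singleton.mpr (hcon x hx)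
    have h2 := Finset.card_le_card h1
    rw [hL v] at h2
    simp at h2
  choose f hf1 hf2 using h
  refine ⟨fun v => match v with
    | ⟨i, none⟩ => g i
    | ⟨i, some j⟩ => f ⟨i, some j⟩ (g i), fun i => rfl, fun i j => ⟨hf1 _ _, hf2 _ _⟩⟩

lemma reduce (L : (Σ i : ι, Option (Fin (m i))) → Finset ℕ) (hL : ∀ v, (L v).card = 2)
    (g : ι → ℕ) (cap : ℕ) (hN : ∑ i, (m i + 1) ≤ 2 * cap) (x : ℕ)
    (hF : ∑ i, fc L i (g i) x ≤ cap) :
    ∀ k : ℕ, ∀ φ, Valid L g φ → (∀ y, y ≠ x → cls φ y ≤ cap) → cls φ x ≤ cap + k →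
      ∃ ψ, Valid L g ψ ∧ ∀ y, cls ψ y ≤ cap := by
  intro k
  induction k with
  | zero =>
    intro φ hφ h1 h2
    refine ⟨φ, hφ, fun y => ?_⟩
    by_cases hy : y = x
    · rw [hy]; simpa using h2
    · exact h1 y hy
  | succ k ih =>
    intro φ hφ h1 h2
    by_cases hle : cls φ x ≤ cap
    · refine ⟨φ, hφ, fun y => ?_⟩
      by_cases hy : y = x
      · rw [hy]; exact hle
      · exact h1 y hy
    push Not at hle
    -- a leaf to recolour
    obtain ⟨i, j, hij, hfree⟩ : ∃ (i : ι) (j : Fin (m i)), φ ⟨i, some j⟩ = x ∧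
        g i ∉ L ⟨i, some j⟩ := by
      by_contra hcon
      push Not at hcon
      have h3 : cls φ x ≤ ∑ i, fc L i (g i) x := by
        rw [cls_eq]
        refine Finset.sum_le_sum fun i _ => ?_
        unfold fc
        rw [hφ.1 i]
        refine Nat.add_le_add_left (Finset.sum_le_sum fun j _ => ?_) _
        by_cases h4 : φ ⟨i, some j⟩ = x
        · have h5 := hcon i j h4
          have h6 := hφ.2 i j
          rw [if_pos h4, if_pos ⟨h5, h4 ▸ h6.1, h4 ▸ h6.2⟩]
        · rw [if_neg h4]; exact Nat.zero_le _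
      omega
    obtain ⟨c, hc, hcx⟩ : ∃ c ∈ L ⟨i, some j⟩, c ≠ x := by
      by_contra hcon
      push Not at hcon
      have h1 : L ⟨i, some j⟩ ⊆ {x} := fun y hy => Finset.mem_singleton.mpr (hcon y hy)
      have h2 := Finset.card_le_card h1
      rw [hL _] at h2
      simp at h2
    classical
    set ψ : (Σ i : ι, Option (Fin (m i))) → ℕ := Function.update φ ⟨i, some j⟩ c with hψ
    have hval : Valid L g ψ := by
      refine ⟨fun i' => ?_, fun i' j' => ?_⟩
      · rw [hψ, Function.update_of_ne]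
        · exact hφ.1 i'
        · intro h
          simp only [Sigma.mk.injEq] at h
          obtain ⟨rfl, h⟩ := h
          simp at h
      · by_cases h : (⟨i', some j'⟩ : Σ i : ι, Option (Fin (m i))) = ⟨i, some j⟩
        · rw [h, hψ, Function.update_self]
          have : i' = i := by
            have := congrArg Sigma.fst h
            exact this
          subst this
          refine ⟨hc, fun h' => hfree (h' ▸ hc)⟩
        · rw [hψ, Function.update_of_ne h]
          exact hφ.2 i' j'
    have hclsx : cls ψ x + 1 ≤ cls φ x := by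
      unfold cls
      apply Nat.succ_le_of_lt
      apply Finset.card_lt_card
      rw [Finset.ssubset_iff_of_subset]
      · refine ⟨⟨i, some j⟩, by simp [hij], by simp [hψ, hcx]⟩
      · intro v hv
        simp only [Finset.mem_filter, Finset.mem_univ, true_and] at hv ⊢
        by_cases h : v = ⟨i, some j⟩
        · rw [h, hψ, Function.update_self] at hv
          exact absurd hv hcx
        · rwa [hψ, Function.update_of_ne h] at hv
    have hclsy : ∀ y, y ≠ x → cls ψ y ≤ cls φ y + 1 := by
      intro y hy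
      unfold cls
      have h3 : (Finset.univ.filter (fun v => ψ v = y)) ⊆
          insert (⟨i, some j⟩ : Σ i : ι, Option (Fin (m i)))
            (Finset.univ.filter (fun v => φ v = y)) := by
        intro v hv
        simp only [Finset.mem_filter, Finset.mem_univ, true_and, Finset.mem_insert] at hv ⊢
        by_cases h : v = ⟨i, some j⟩
        · exact Or.inl h
        · right
          rwa [hψ, Function.update_of_ne h] at hv
      exact (Finset.card_le_card h3).trans (Finset.card_insert_le _ _)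
    refine ih ψ hval (fun y hy => ?_) (by omega)
    have h4 := cls_add φ x y (Ne.symm hy)
    have h5 := hclsy y hy
    omega

/-- extension of a choice of the colours of the centres -/
lemma extend (L : (Σ i : ι, Option (Fin (m i))) → Finset ℕ) (hL : ∀ v, (L v).card = 2)
    (g : ι → ℕ) (cap : ℕ) (hN : ∑ i, (m i + 1) ≤ 2 * cap)
    (hF : ∀ x, ∑ i, fc L i (g i) x ≤ cap) :
    ∃ ψ, Valid L g ψ ∧ ∀ y, cls ψ y ≤ cap := by
  obtain ⟨φ, hφ⟩ := exists_valid L hL g
  by_cases h : ∀ y, cls φ y ≤ cap
  · exact ⟨φ, hφ, h⟩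
  push Not at h
  obtain ⟨x, hx⟩ := h
  refine reduce L hL g cap hN x (hF x) (cls φ x) φ hφ (fun y hy => ?_) (by omega)
  have h4 := cls_add φ x y (Ne.symm hy)
  omega

end Pool.Agent.Q258.EqStar
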