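import Pool.Agent.Q258.EqStar.Win
import Pool.Agent.Q258.EqStar.Adv

set_option autoImplicit false

namespace Pool.Agent.Q258.EqStar

/-- coefficients 3, 3, 2, 2, 2, 0, 0, ... -/
def aa (t : ℕ) : ℕ := if t < 2 then 3 else if t < 5 then 2 else 0

lemma dec : ∀ p0 p1 p2 p3 p4 : Bool, ∃ e0 e1 e2 e3 e4 : Bool,
    2 * ((if p0 then (if e0 then (3 : ℤ) else -3) else 0) +
      (if p1 then (if e1 then (3 : ℤ) else -3) else 0) +
      (if p2 then (if e2 then (2 : ℤ) else -2) else 0) +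
      (if p3 then (if e3 then (2 : ℤ) else -2) else 0) +
      (if p4 then (if e4 then (2 : ℤ) else -2) else 0)) ≤
      (if p0 then (0 : ℤ) else 3) + (if p1 then (0 : ℤ) else 3) + (if p2 then (0 : ℤ) else 2) +
        (if p3 then (0 : ℤ) else 2) + (if p4 then (0 : ℤ) else 2) ∧
    -((if p0 then (0 : ℤ) else 3) + (if p1 then (0 : ℤ) else 3) + (if p2 then (0 : ℤ) else 2) +
        (if p3 then (0 : ℤ) else 2) + (if p4 then (0 : ℤ) else 2)) ≤
    2 * ((if p0 then (if e0 then (3 : ℤ) else -3) else 0) +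
      (if p1 then (if e1 then (3 : ℤ) else -3) else 0) +
      (if p2 then (if e2 then (2 : ℤ) else -2) else 0) +
      (if p3 then (if e3 then (2 : ℤ) else -2) else 0) +
      (if p4 then (if e4 then (2 : ℤ) else -2) else 0)) := by
  decide

lemma part_inf (r k : ℕ) :
    EquitablyChoosable 2 (starUnion (fun i : Fin (5 + r) => aa i.val * k + 1)) := by
  apply choosable_of
  intro K
  obtain ⟨e0, e1, e2, e3, e4, h1, h2⟩ := dec (decide (Fin.castAdd r (0 : Fin 5) ∈ K))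
    (decide (Fin.castAdd r (1 : Fin 5) ∈ K)) (decide (Fin.castAdd r (2 : Fin 5) ∈ K))
    (decide (Fin.castAdd r (3 : Fin 5) ∈ K)) (decide (Fin.castAdd r (4 : Fin 5) ∈ K))
  simp only [decide_eq_true_eq] at h1 h2
  refine ⟨fun i => Fin.addCases (motive := fun _ => Bool) (fun j => ![e0, e1, e2, e3, e4] j)
    (fun _ => true) i, ?_⟩
  set ε : Fin (5 + r) → Bool := fun i => Fin.addCases (motive := fun _ => Bool)
    (fun j => ![e0, e1, e2, e3, e4] j) (fun _ => true) i with hε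
  have hS : ∑ i ∈ K, (if ε i then (((aa i.val * k + 1 : ℕ) : ℤ) - 1) else
      -(((aa i.val * k + 1 : ℕ) : ℤ) - 1)) =
      k * ((if Fin.castAdd r (0 : Fin 5) ∈ K then (if e0 then (3 : ℤ) else -3) else 0) +
      (if Fin.castAdd r (1 : Fin 5) ∈ K then (if e1 then (3 : ℤ) else -3) else 0) +
      (if Fin.castAdd r (2 : Fin 5) ∈ K then (if e2 then (2 : ℤ) else -2) else 0) +
      (if Fin.castAdd r (3 : Fin 5) ∈ K then (if e3 then (2 : ℤ) else -2) else 0) +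
      (if Fin.castAdd r (4 : Fin 5) ∈ K then (if e4 then (2 : ℤ) else -2) else 0)) := by
    have h3 : ∑ i ∈ K, (if ε i then (((aa i.val * k + 1 : ℕ) : ℤ) - 1) else
      -(((aa i.val * k + 1 : ℕ) : ℤ) - 1)) = ∑ i, (if i ∈ K then
        (if ε i then (((aa i.val * k + 1 : ℕ) : ℤ) - 1) else
      -(((aa i.val * k + 1 : ℕ) : ℤ) - 1)) else 0) := by
      rw [Finset.sum_ite_mem, Finset.univ_inter]
    rw [h3, Fin.sum_univ_add, Fin.sum_univ_five]
    have h4 : ∑ i : Fin r, (if Fin.natAdd 5 i ∈ K then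
        (if ε (Fin.natAdd 5 i) then (((aa (Fin.natAdd 5 i).val * k + 1 : ℕ) : ℤ) - 1) else
      -(((aa (Fin.natAdd 5 i).val * k + 1 : ℕ) : ℤ) - 1)) else 0) = 0 := by
      apply Finset.sum_eq_zero
      intro i _
      have : aa (Fin.natAdd 5 i).val = 0 := by
        unfold aa
        rw [Fin.val_natAdd, if_neg (by omega), if_neg (by omega)]
      rw [this]
      simp
    rw [h4]
    have v0 : aa (Fin.castAdd r (0 : Fin 5)).val = 3 := rfl
    have v1 : aa (Fin.castAdd r (1 : Fin 5)).val = 3 := rfl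
    have v2 : aa (Fin.castAdd r (2 : Fin 5)).val = 2 := rfl
    have v3 : aa (Fin.castAdd r (3 : Fin 5)).val = 2 := rfl
    have v4 : aa (Fin.castAdd r (4 : Fin 5)).val = 2 := rfl
    have w0 : ε (Fin.castAdd r (0 : Fin 5)) = e0 := by simp [hε]
    have w1 : ε (Fin.castAdd r (1 : Fin 5)) = e1 := by simp [hε]
    have w2 : ε (Fin.castAdd r (2 : Fin 5)) = e2 := by simp [hε]
    have w3 : ε (Fin.castAdd r (3 : Fin 5)) = e3 := by simp [hε]
    have w4 : ε (Fin.castAdd r (4 : Fin 5)) = e4 := by simp [hε]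
    rw [v0, v1, v2, v3, v4, w0, w1, w2, w3, w4]
    push_cast
    have q3 : ∀ e : Bool, (if e then ((3 : ℤ) * k + 1 - 1) else -((3 : ℤ) * k + 1 - 1)) =
        k * (if e then (3 : ℤ) else -3) := by
      intro e; cases e <;> simp <;> ring
    have q2 : ∀ e : Bool, (if e then ((2 : ℤ) * k + 1 - 1) else -((2 : ℤ) * k + 1 - 1)) =
        k * (if e then (2 : ℤ) else -2) := by
      intro e; cases e <;> simp <;> ring
    rw [q3, q3, q2, q2, q2]
    have q : ∀ (P : Prop) [Decidable P] (z : ℤ), (if P then (k : ℤ) * z else 0) =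
        k * (if P then z else 0) := by
      intro P _ z; split_ifs <;> simp
    rw [q, q, q, q, q]
    ring
  have hR : (k : ℤ) * ((if Fin.castAdd r (0 : Fin 5) ∈ K then (0 : ℤ) else 3) +
      (if Fin.castAdd r (1 : Fin 5) ∈ K then (0 : ℤ) else 3) +
      (if Fin.castAdd r (2 : Fin 5) ∈ K then (0 : ℤ) else 2) +
      (if Fin.castAdd r (3 : Fin 5) ∈ K then (0 : ℤ) else 2) +
      (if Fin.castAdd r (4 : Fin 5) ∈ K then (0 : ℤ) else 2)) ≤
      ∑ i ∈ Kᶜ, (((aa i.val * k + 1 : ℕ) : ℤ) + 1) := by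
    have h3 : ∑ i ∈ Kᶜ, (((aa i.val * k + 1 : ℕ) : ℤ) + 1) = ∑ i, (if i ∈ Kᶜ then
        (((aa i.val * k + 1 : ℕ) : ℤ) + 1) else 0) := by
      rw [Finset.sum_ite_mem, Finset.univ_inter]
    rw [h3, Fin.sum_univ_add, Fin.sum_univ_five]
    have h4 : 0 ≤ ∑ i : Fin r, (if Fin.natAdd 5 i ∈ Kᶜ then
        (((aa (Fin.natAdd 5 i).val * k + 1 : ℕ) : ℤ) + 1) else 0) := by
      apply Finset.sum_nonneg
      intro i _
      split_ifs
      · positivity
      · exact le_rfl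
    have v0 : aa (Fin.castAdd r (0 : Fin 5)).val = 3 := rfl
    have v1 : aa (Fin.castAdd r (1 : Fin 5)).val = 3 := rfl
    have v2 : aa (Fin.castAdd r (2 : Fin 5)).val = 2 := rfl
    have v3 : aa (Fin.castAdd r (3 : Fin 5)).val = 2 := rfl
    have v4 : aa (Fin.castAdd r (4 : Fin 5)).val = 2 := rfl
    rw [v0, v1, v2, v3, v4]
    push_cast
    have q : ∀ (i : Fin (5 + r)) (z : ℤ), 0 ≤ z → (k : ℤ) * (if i ∈ K then (0 : ℤ) else z) ≤
        (if i ∈ Kᶜ then (z * k + 1 + 1) else 0) := by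
      intro i z hz
      by_cases hi : i ∈ K
      · simp [hi]
      · simp only [hi, if_false, Finset.mem_compl, not_false_eq_true, if_true]
        linarith [mul_comm (k : ℤ) z]
    have g0 := q (Fin.castAdd r (0 : Fin 5)) 3 (by norm_num)
    have g1 := q (Fin.castAdd r (1 : Fin 5)) 3 (by norm_num)
    have g2 := q (Fin.castAdd r (2 : Fin 5)) 2 (by norm_num)
    have g3 := q (Fin.castAdd r (3 : Fin 5)) 2 (by norm_num)
    have g4 := q (Fin.castAdd r (4 : Fin 5)) 2 (by norm_num)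
    push_cast at h4
    linarith
  rw [hS]
  refine le_trans ?_ hR
  rw [abs_mul, abs_of_nonneg (Nat.cast_nonneg k : (0 : ℤ) ≤ k), mul_left_comm]
  apply mul_le_mul_of_nonneg_left _ (Nat.cast_nonneg k)
  rw [show (2 : ℤ) = |2| by norm_num, ← abs_mul, show |(2 : ℤ)| = 2 by norm_num, abs_le]
  exact ⟨h2, h1⟩

lemma adv' {n : ℕ} (m : Fin n → ℕ) (h : EquitablyChoosable 2 (starUnion m))
    (σ : Equiv.Perm (Fin n)) (t0 : ℕ) : ∃ e : Fin n → Bool,
    2 * |∑ t : Fin n, (if t0 ≤ t.val then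
      (if e t then ((m (σ t) : ℤ) - 1) else -((m (σ t) : ℤ) - 1)) else 0)| ≤
      ∑ t : Fin n, (if t0 ≤ t.val then 0 else ((m (σ t) : ℤ) + 5)) + 2 := by
  obtain ⟨ε, hε⟩ := adv (Finset.univ.filter (fun i : Fin n => t0 ≤ (σ.symm i).val)) h
  refine ⟨fun t => ε (σ t), ?_⟩
  have h1 : ∑ i ∈ (Finset.univ.filter (fun i : Fin n => t0 ≤ (σ.symm i).val)),
      (if ε i then ((m i : ℤ) - 1) else -((m i : ℤ) - 1)) = ∑ t : Fin n, (if t0 ≤ t.val then
      (if ε (σ t) then ((m (σ t) : ℤ) - 1) else -((m (σ t) : ℤ) - 1)) else 0) := by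
    rw [Finset.sum_filter, ← Equiv.sum_comp σ]
    simp
  have h2 : ∑ i ∈ (Finset.univ.filter (fun i : Fin n => t0 ≤ (σ.symm i).val))ᶜ,
      ((m i : ℤ) + 5) = ∑ t : Fin n, (if t0 ≤ t.val then 0 else ((m (σ t) : ℤ) + 5)) := by
    rw [Finset.compl_filter, Finset.sum_filter, ← Equiv.sum_comp σ]
    refine Finset.sum_congr rfl fun t _ => ?_
    by_cases h : t0 ≤ t.val
    · simp [h]
    · simp [h]
  rw [h1, h2] at hε
  exact hε

/-- signed sum without absolute value -/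
lemma adv'' {n : ℕ} (m : Fin n → ℕ) (h : EquitablyChoosable 2 (starUnion m))
    (σ : Equiv.Perm (Fin n)) (t0 : ℕ) : ∃ e : Fin n → Bool,
    2 * ∑ t : Fin n, (if t0 ≤ t.val then
      (if e t then ((m (σ t) : ℤ) - 1) else -((m (σ t) : ℤ) - 1)) else 0) ≤
      ∑ t : Fin n, (if t0 ≤ t.val then 0 else ((m (σ t) : ℤ) + 5)) + 2 ∧
    -(∑ t : Fin n, (if t0 ≤ t.val then 0 else ((m (σ t) : ℤ) + 5)) + 2) ≤
    2 * ∑ t : Fin n, (if t0 ≤ t.val then
      (if e t then ((m (σ t) : ℤ) - 1) else -((m (σ t) : ℤ) - 1)) else 0) := by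
  obtain ⟨e, he⟩ := adv' m h σ t0
  refine ⟨e, ?_⟩
  have h2 : |2 * ∑ t : Fin n, (if t0 ≤ t.val then
      (if e t then ((m (σ t) : ℤ) - 1) else -((m (σ t) : ℤ) - 1)) else 0)| ≤
      ∑ t : Fin n, (if t0 ≤ t.val then 0 else ((m (σ t) : ℤ) + 5)) + 2 := by
    rw [abs_mul]
    exact he
  exact ⟨(abs_le.mp h2).2, (abs_le.mp h2).1⟩

lemma bound2 (m : Fin 2 → ℕ) (h1 : ∀ i, 1 ≤ m i) (h : EquitablyChoosable 2 (starUnion m)) :
    ∀ i, m i ≤ 100 := by
  set σ := Tuple.sort m with hσ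
  have hmono : Monotone (m ∘ σ) := Tuple.monotone_sort m
  have m01 : m (σ 0) ≤ m (σ 1) := hmono (by decide)
  have p0 := h1 (σ 0)
  have p1 := h1 (σ 1)
  obtain ⟨e, he⟩ := adv'' m h σ 0
  obtain ⟨e', he'⟩ := adv'' m h σ 1
  simp [Fin.sum_univ_two] at he he'
  have key : m (σ 1) ≤ 100 := by
    cases h0 : e 0 <;> cases h1 : e 1 <;> cases h1' : e' 1 <;>
      simp [h0, h1, h1'] at he he' <;> omega
  intro i
  obtain ⟨t, rfl⟩ := σ.surjective i
  fin_cases t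
  · exact m01.trans key
  · exact key

lemma bound3 (m : Fin 3 → ℕ) (h1 : ∀ i, 1 ≤ m i) (h : EquitablyChoosable 2 (starUnion m)) :
    ∀ i, m i ≤ 100 := by
  set σ := Tuple.sort m with hσ
  have hmono : Monotone (m ∘ σ) := Tuple.monotone_sort m
  have m01 : m (σ 0) ≤ m (σ 1) := hmono (by decide)
  have m12 : m (σ 1) ≤ m (σ 2) := hmono (by decide)
  have p0 := h1 (σ 0)
  have p1 := h1 (σ 1)
  have p2 := h1 (σ 2)
  have F0 : ((m (σ 2) : ℤ) - 1) - (m (σ 1) - 1) - (m (σ 0) - 1) ≤ 1 ∧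
      -1 ≤ ((m (σ 2) : ℤ) - 1) - (m (σ 1) - 1) - (m (σ 0) - 1) ∨
      ((m (σ 2) : ℤ) - 1) - (m (σ 1) - 1) + (m (σ 0) - 1) ≤ 1 := by
    obtain ⟨e, he⟩ := adv'' m h σ 0
    simp [Fin.sum_univ_three] at he
    cases h0 : e 0 <;> cases h1 : e 1 <;> cases h2 : e 2 <;>
      simp [h0, h1, h2] at he <;> omega
  have F1 : 2 * (((m (σ 2) : ℤ) - 1) - (m (σ 1) - 1)) ≤ m (σ 0) + 7 := by
    obtain ⟨e, he⟩ := adv'' m h σ 1
    simp [Fin.sum_univ_three] at he
    cases h1 : e 1 <;> cases h2 : e 2 <;>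
      simp [h1, h2] at he <;> omega
  have F2 : 2 * ((m (σ 2) : ℤ) - 1) ≤ m (σ 0) + m (σ 1) + 12 := by
    obtain ⟨e, he⟩ := adv'' m h σ 2
    simp [Fin.sum_univ_three] at he
    cases h2 : e 2 <;>
      simp [h2] at he <;> omega
  have key : m (σ 2) ≤ 100 := by omega
  intro i
  obtain ⟨t, rfl⟩ := σ.surjective i
  fin_cases t
  · exact (m01.trans m12).trans key
  · exact m12.trans key
  · exact key

lemma bound4 (m : Fin 4 → ℕ) (h1 : ∀ i, 1 ≤ m i) (h : EquitablyChoosable 2 (starUnion m)) :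
    ∀ i, m i ≤ 100 := by
  set σ := Tuple.sort m with hσ
  have hmono : Monotone (m ∘ σ) := Tuple.monotone_sort m
  have m01 : m (σ 0) ≤ m (σ 1) := hmono (by decide)
  have m12 : m (σ 1) ≤ m (σ 2) := hmono (by decide)
  have m23 : m (σ 2) ≤ m (σ 3) := hmono (by decide)
  have p0 := h1 (σ 0)
  have p1 := h1 (σ 1)
  have p2 := h1 (σ 2)
  have p3 := h1 (σ 3)
  have F0 : (((m (σ 3) : ℤ) - 1) - (m (σ 2) - 1) - (m (σ 1) - 1) - (m (σ 0) - 1) ≤ 1 ∧
      -1 ≤ ((m (σ 3) : ℤ) - 1) - (m (σ 2) - 1) - (m (σ 1) - 1) - (m (σ 0) - 1)) ∨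
      (((m (σ 3) : ℤ) - 1) - (m (σ 2) - 1) - (m (σ 1) - 1) + (m (σ 0) - 1) ≤ 1 ∧
      -1 ≤ ((m (σ 3) : ℤ) - 1) - (m (σ 2) - 1) - (m (σ 1) - 1) + (m (σ 0) - 1)) := by
    obtain ⟨e, he⟩ := adv'' m h σ 0
    simp [Fin.sum_univ_four] at he
    cases h0 : e 0 <;> cases h1 : e 1 <;> cases h2 : e 2 <;> cases h3 : e 3 <;>
      simp [h0, h1, h2, h3] at he <;> omega
  have F1 : 2 * (((m (σ 3) : ℤ) - 1) - (m (σ 2) - 1) - (m (σ 1) - 1)) ≤ m (σ 0) + 7 ∧
      -(m (σ 0) + 7 : ℤ) ≤ 2 * (((m (σ 3) : ℤ) - 1) - (m (σ 2) - 1) - (m (σ 1) - 1)) := by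
    obtain ⟨e, he⟩ := adv'' m h σ 1
    simp [Fin.sum_univ_four] at he
    cases h1 : e 1 <;> cases h2 : e 2 <;> cases h3 : e 3 <;>
      simp [h1, h2, h3] at he <;> omega
  have F2 : 2 * (((m (σ 3) : ℤ) - 1) - (m (σ 2) - 1)) ≤ m (σ 0) + m (σ 1) + 12 := by
    obtain ⟨e, he⟩ := adv'' m h σ 2
    simp [Fin.sum_univ_four] at he
    cases h2 : e 2 <;> cases h3 : e 3 <;>
      simp [h2, h3] at he <;> omega
  have F3 : 2 * ((m (σ 3) : ℤ) - 1) ≤ m (σ 0) + m (σ 1) + m (σ 2) + 17 := by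
    obtain ⟨e, he⟩ := adv'' m h σ 3
    simp [Fin.sum_univ_four] at he
    cases h3 : e 3 <;>
      simp [h3] at he <;> omega
  have key : m (σ 3) ≤ 100 := by omega
  intro i
  obtain ⟨t, rfl⟩ := σ.surjective i
  fin_cases t
  · exact ((m01.trans m12).trans m23).trans key
  · exact (m12.trans m23).trans key
  · exact m23.trans key
  · exact key

end Pool.Agent.Q258.EqStar
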