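import Pool.Agent.Q258.EqStar.Col

set_option autoImplicit false

namespace Pool.Agent.Q258.EqStar

variable {ι : Type} [Fintype ι] [DecidableEq ι] {m : ι → ℕ}

/-- outcome o makes x a bad colour -/
def Bad (L : (Σ i : ι, Option (Fin (m i))) → Finset ℕ) (cap : ℕ) (o : ι → ℕ) (x : ℕ) : Prop :=
  cap < ∑ i, fc L i (o i) x

lemma bad_unique (L : (Σ i : ι, Option (Fin (m i))) → Finset ℕ) (hL : ∀ v, (L v).card = 2)
    (cap : ℕ) (hN : ∑ i, (m i + 1) ≤ 2 * cap) (o o' : ι → ℕ) (ho : ∀ i, o i ∈ L ⟨i, none⟩)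
    (ho' : ∀ i, o' i ∈ L ⟨i, none⟩) (x y : ℕ) (h : Bad L cap o x) (h' : Bad L cap o' y)
    (hag : ∀ i, x ∈ L ⟨i, none⟩ → o i = o' i) : x = y := by
  by_contra hxy
  unfold Bad at h h'
  have h1 : ∑ i, fc L i (o i) x + ∑ i, fc L i (o' i) y ≤ ∑ i, (m i + 1) := by
    rw [← Finset.sum_add_distrib]
    refine Finset.sum_le_sum fun i _ => ?_
    by_cases h2 : o i = o' i
    · rw [← h2]
      exact fc_same L hL i (o i) x y hxy
    · exact fc_diff L hL i (o i) (o' i) x y hxy (ho i) (ho' i) h2 (fun h3 => h2 (hag i h3))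
  omega

/-- three outcomes with pairwise different bad colours are impossible if all outcomes are bad -/
lemma not_three (L : (Σ i : ι, Option (Fin (m i))) → Finset ℕ) (hL : ∀ v, (L v).card = 2)
    (cap : ℕ) (hN : ∑ i, (m i + 1) ≤ 2 * cap)
    (hall : ∀ o : ι → ℕ, (∀ i, o i ∈ L ⟨i, none⟩) → ∃ x, Bad L cap o x)
    (o₁ o₂ o₃ : ι → ℕ) (h₁ : ∀ i, o₁ i ∈ L ⟨i, none⟩) (h₂ : ∀ i, o₂ i ∈ L ⟨i, none⟩)
    (h₃ : ∀ i, o₃ i ∈ L ⟨i, none⟩) (x₁ x₂ x₃ : ℕ) (b₁ : Bad L cap o₁ x₁) (b₂ : Bad L cap o₂ x₂)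
    (b₃ : Bad L cap o₃ x₃) (h12 : x₁ ≠ x₂) (h13 : x₁ ≠ x₃) (h23 : x₂ ≠ x₃) : False := by
  have hno3 : ∀ i, ¬ (x₁ ∈ L ⟨i, none⟩ ∧ x₂ ∈ L ⟨i, none⟩ ∧ x₃ ∈ L ⟨i, none⟩) := by
    rintro i ⟨e1, e2, e3⟩
    rcases two_of_card _ (hL ⟨i, none⟩) x₁ x₂ x₃ e1 e2 e3 with h | h | h
    · exact h12 h
    · exact h13 h
    · exact h23 h
  classical
  -- hybrid outcome: (A, B, C) = choice on the pairs 12, 13, 23
  let hyb : (ι → ℕ) → (ι → ℕ) → (ι → ℕ) → (ι → ℕ) := fun A B C i =>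
    if x₁ ∈ L ⟨i, none⟩ ∧ x₂ ∈ L ⟨i, none⟩ then A i
    else if x₁ ∈ L ⟨i, none⟩ ∧ x₃ ∈ L ⟨i, none⟩ then B i
    else if x₂ ∈ L ⟨i, none⟩ ∧ x₃ ∈ L ⟨i, none⟩ then C i
    else if x₁ ∈ L ⟨i, none⟩ then o₁ i
    else if x₂ ∈ L ⟨i, none⟩ then o₂ i
    else o₃ i
  have hhyb : ∀ A B C : ι → ℕ, (∀ i, A i ∈ L ⟨i, none⟩) → (∀ i, B i ∈ L ⟨i, none⟩) →
      (∀ i, C i ∈ L ⟨i, none⟩) → ∀ i, hyb A B C i ∈ L ⟨i, none⟩ := by
    intro A B C hA hB hC i
    simp only [hyb]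
    split_ifs
    · exact hA i
    · exact hB i
    · exact hC i
    · exact h₁ i
    · exact h₂ i
    · exact h₃ i
  obtain ⟨z, hz⟩ := hall (hyb o₁ o₃ o₂) (hhyb _ _ _ h₁ h₃ h₂)
  have hv := hhyb _ _ _ h₁ h₃ h₂
  -- agreement facts
  have key : ∀ A B C A' B' C' : ι → ℕ, ∀ i, x₁ ∈ L ⟨i, none⟩ → (A i = A' i) → (B i = B' i) →
      hyb A B C i = hyb A' B' C' i := by
    intro A B C A' B' C' i h1 hA hB
    simp only [hyb]
    by_cases e2 : x₂ ∈ L ⟨i, none⟩
    · rw [if_pos ⟨h1, e2⟩, if_pos ⟨h1, e2⟩, hA]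
    · by_cases e3 : x₃ ∈ L ⟨i, none⟩
      · simp [h1, e2, e3, hB]
      · simp [h1, e2, e3]
  have key2 : ∀ A B C A' B' C' : ι → ℕ, ∀ i, x₂ ∈ L ⟨i, none⟩ → (A i = A' i) → (C i = C' i) →
      hyb A B C i = hyb A' B' C' i := by
    intro A B C A' B' C' i h1 hA hB
    simp only [hyb]
    by_cases e2 : x₁ ∈ L ⟨i, none⟩
    · simp [h1, e2, hA]
    · by_cases e3 : x₃ ∈ L ⟨i, none⟩
      · simp [h1, e2, e3, hB]
      · simp [h1, e2, e3]
  have key3 : ∀ A B C A' B' C' : ι → ℕ, ∀ i, x₃ ∈ L ⟨i, none⟩ → (B i = B' i) → (C i = C' i) →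
      hyb A B C i = hyb A' B' C' i := by
    intro A B C A' B' C' i h1 hA hB
    simp only [hyb]
    by_cases e2 : x₁ ∈ L ⟨i, none⟩
    · have e3 : x₂ ∉ L ⟨i, none⟩ := fun e3 => hno3 i ⟨e2, e3, h1⟩
      simp [h1, e2, e3, hA]
    · by_cases e3 : x₂ ∈ L ⟨i, none⟩
      · simp [h1, e2, e3, hB]
      · simp [h1, e2, e3]
  have s1 : ∀ A B C : ι → ℕ, ∀ i, x₁ ∈ L ⟨i, none⟩ → A i = o₁ i → B i = o₁ i →
      o₁ i = hyb A B C i := by
    intro A B C i h1 hA hB
    simp only [hyb]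
    by_cases e2 : x₂ ∈ L ⟨i, none⟩
    · rw [if_pos ⟨h1, e2⟩, hA]
    · by_cases e3 : x₃ ∈ L ⟨i, none⟩
      · simp [h1, e2, e3, hB]
      · simp [h1, e2, e3]
  have s2 : ∀ A B C : ι → ℕ, ∀ i, x₂ ∈ L ⟨i, none⟩ → A i = o₂ i → C i = o₂ i →
      o₂ i = hyb A B C i := by
    intro A B C i h1 hA hB
    simp only [hyb]
    by_cases e2 : x₁ ∈ L ⟨i, none⟩
    · simp [h1, e2, hA]
    · by_cases e3 : x₃ ∈ L ⟨i, none⟩
      · simp [h1, e2, e3, hB]
      · simp [h1, e2, e3]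
  have s3 : ∀ A B C : ι → ℕ, ∀ i, x₃ ∈ L ⟨i, none⟩ → B i = o₃ i → C i = o₃ i →
      o₃ i = hyb A B C i := by
    intro A B C i h1 hA hB
    simp only [hyb]
    by_cases e2 : x₁ ∈ L ⟨i, none⟩
    · have e3 : x₂ ∉ L ⟨i, none⟩ := fun e3 => hno3 i ⟨e2, e3, h1⟩
      simp [h1, e2, e3, hA]
    · by_cases e3 : x₂ ∈ L ⟨i, none⟩
      · simp [h1, e2, e3, hB]
      · simp [h1, e2, e3]
  have hz3 : z = x₁ ∨ z = x₂ ∨ z = x₃ := by
    by_contra hcon
    push Not at hcon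
    unfold Bad at b₁ b₂ b₃ hz
    have h5 : ∑ i, fc L i (o₁ i) x₁ + ∑ i, fc L i (o₂ i) x₂ + ∑ i, fc L i (o₃ i) x₃ +
        ∑ i, fc L i (hyb o₁ o₃ o₂ i) z ≤ ∑ i, 2 * (m i + 1) := by
      rw [← Finset.sum_add_distrib, ← Finset.sum_add_distrib, ← Finset.sum_add_distrib]
      exact Finset.sum_le_sum fun i _ => fc_three L hL i _ _ _ _ _ _ _ _ (h₁ i) (h₂ i) (h₃ i)
        (hv i) h12 h13 (Ne.symm hcon.1) h23 (Ne.symm hcon.2.1) (Ne.symm hcon.2.2)
    rw [← Finset.mul_sum] at h5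
    omega
  rcases hz3 with rfl | rfl | rfl
  · -- z = x₁: compare with (o₁, o₃, o₃)
    obtain ⟨w, hw⟩ := hall (hyb o₁ o₃ o₃) (hhyb _ _ _ h₁ h₃ h₃)
    have e1 := bad_unique L hL cap hN _ _ hv (hhyb _ _ _ h₁ h₃ h₃) _ _ hz hw
      (fun i hi => key _ _ _ _ _ _ i hi rfl rfl)
    have e2 := bad_unique L hL cap hN _ _ h₃ (hhyb _ _ _ h₁ h₃ h₃) _ _ b₃ hw
      (fun i hi => s3 _ _ _ i hi rfl rfl)
    exact h13 (e1.trans e2.symm)
  · -- z = x₂: compare with (o₁, o₁, o₂)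
    obtain ⟨w, hw⟩ := hall (hyb o₁ o₁ o₂) (hhyb _ _ _ h₁ h₁ h₂)
    have e1 := bad_unique L hL cap hN _ _ hv (hhyb _ _ _ h₁ h₁ h₂) _ _ hz hw
      (fun i hi => key2 _ _ _ _ _ _ i hi rfl rfl)
    have e2 := bad_unique L hL cap hN _ _ h₁ (hhyb _ _ _ h₁ h₁ h₂) _ _ b₁ hw
      (fun i hi => s1 _ _ _ i hi rfl rfl)
    exact h12 (e2.trans e1.symm)
  · -- z = x₃: compare with (o₂, o₃, o₂)
    obtain ⟨w, hw⟩ := hall (hyb o₂ o₃ o₂) (hhyb _ _ _ h₂ h₃ h₂)
    have e1 := bad_unique L hL cap hN _ _ hv (hhyb _ _ _ h₂ h₃ h₂) _ _ hz hw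
      (fun i hi => key3 _ _ _ _ _ _ i hi rfl rfl)
    have e2 := bad_unique L hL cap hN _ _ h₂ (hhyb _ _ _ h₂ h₃ h₂) _ _ b₂ hw
      (fun i hi => s2 _ _ _ i hi rfl rfl)
    exact h23 (e2.trans e1.symm)

/-- two colours can be kept small at the same time -/
lemma two_colours (L : (Σ i : ι, Option (Fin (m i))) → Finset ℕ) (hL : ∀ v, (L v).card = 2)
    (cap : ℕ) (hN : ∑ i, (m i + 1) ≤ 2 * cap)
    (hnum : ∀ K : Finset ι, ∃ ε : ι → Bool,
      2 * |∑ i ∈ K, (if ε i then ((m i : ℤ) - 1) else -((m i : ℤ) - 1))| ≤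
        ∑ i ∈ Kᶜ, ((m i : ℤ) + 1))
    (x y : ℕ) (hxy : x ≠ y) :
    ∃ o : ι → ℕ, (∀ i, o i ∈ L ⟨i, none⟩) ∧ ¬ Bad L cap o x ∧ ¬ Bad L cap o y := by
  classical
  have hab : ∀ i, ∃ a b, a ≠ b ∧ L ⟨i, none⟩ = {a, b} := fun i =>
    Finset.card_eq_two.mp (hL ⟨i, none⟩)
  choose a b hne hLab using hab
  set K : Finset ι := Finset.univ.filter (fun i => x ∈ L ⟨i, none⟩ ∧ y ∈ L ⟨i, none⟩) with hK
  obtain ⟨ε, hε⟩ := hnum K
  have haM : ∀ i, a i ∈ L ⟨i, none⟩ := fun i => by rw [hLab i]; simp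
  have hbM : ∀ i, b i ∈ L ⟨i, none⟩ := fun i => by rw [hLab i]; simp
  -- outcomes
  let out : Bool → Bool → ι → ℕ := fun fl sd i =>
    if x ∈ L ⟨i, none⟩ ∧ y ∈ L ⟨i, none⟩ then (if (ε i).xor fl then y else x)
    else (if sd then a i else b i)
  have hout : ∀ fl sd i, out fl sd i ∈ L ⟨i, none⟩ := by
    intro fl sd i
    simp only [out]
    split_ifs with h h1 h2
    · exact h.2
    · exact h.1
    · exact haM i
    · exact hbM i
  set δ : ℤ := ∑ i ∈ K, (if ε i then ((m i : ℤ) - 1) else -((m i : ℤ) - 1)) with hδ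
  set Q : ℤ := ∑ i ∈ Kᶜ, ((m i : ℤ) + 1) with hQ
  set s : ℤ := ∑ i ∈ K, ((m i : ℤ) + 1) with hs
  have hsQ : s + Q ≤ 2 * (cap : ℤ) := by
    rw [hs, hQ, Finset.sum_add_sum_compl]
    exact_mod_cast hN
  let U : Bool → ℤ := fun sd => ∑ i ∈ Kᶜ, (fc L i (if sd then a i else b i) x : ℤ)
  let W : Bool → ℤ := fun sd => ∑ i ∈ Kᶜ, (fc L i (if sd then a i else b i) y : ℤ)
  have hUW : U true + W true + U false + W false ≤ Q := by
    simp only [U, W, if_true, Bool.false_eq_true, if_false]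
    rw [← Finset.sum_add_distrib, ← Finset.sum_add_distrib, ← Finset.sum_add_distrib, hQ]
    refine Finset.sum_le_sum fun i hi => ?_
    have hi' : ¬ (x ∈ L ⟨i, none⟩ ∧ y ∈ L ⟨i, none⟩) := by
      rw [Finset.mem_compl, hK, Finset.mem_filter] at hi
      exact fun h => hi ⟨Finset.mem_univ _, h⟩
    have := fc_four L hL i (a i) (b i) x y hxy (haM i) (hbM i) (hne i) hi'
    exact_mod_cast this
  have hU0 : ∀ sd, 0 ≤ U sd := fun sd => Finset.sum_nonneg fun i _ => by positivity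
  have hW0 : ∀ sd, 0 ≤ W sd := fun sd => Finset.sum_nonneg fun i _ => by positivity
  have hleaf : ∀ i (g z : ℕ), ∑ j : Fin (m i),
      (if g ∈ L ⟨i, some j⟩ ∧ z ∈ L ⟨i, some j⟩ ∧ z ≠ g then 1 else 0) ≤ m i := by
    intro i g z
    calc _ ≤ ∑ _j : Fin (m i), 1 := Finset.sum_le_sum fun j _ => by split_ifs <;> omega
      _ = m i := by simp
  have hself : ∀ i (g : ℕ), fc L i g g = 1 := by
    intro i g
    unfold fc
    simp
  have hother : ∀ i (g z : ℕ), g ≠ z → fc L i g z ≤ m i := by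
    intro i g z hgz
    unfold fc
    rw [if_neg hgz, zero_add]
    exact hleaf i g z
  -- sums
  have hX : ∀ fl sd, 2 * ∑ i, (fc L i (out fl sd i) x : ℤ) ≤
      s + (if fl then -δ else δ) + 2 * U sd := by
    intro fl sd
    rw [← Finset.sum_add_sum_compl K, mul_add]
    apply add_le_add
    · rw [hs, hδ, Finset.mul_sum]
      have : (if fl then -∑ i ∈ K, (if ε i then ((m i : ℤ) - 1) else -((m i : ℤ) - 1)) else
          ∑ i ∈ K, (if ε i then ((m i : ℤ) - 1) else -((m i : ℤ) - 1))) =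
          ∑ i ∈ K, (if fl then -(if ε i then ((m i : ℤ) - 1) else -((m i : ℤ) - 1)) else
            (if ε i then ((m i : ℤ) - 1) else -((m i : ℤ) - 1))) := by
        cases fl
        · simp
        · simp [Finset.sum_neg_distrib]
      rw [this, ← Finset.sum_add_distrib]
      refine Finset.sum_le_sum fun i hi => ?_
      rw [hK, Finset.mem_filter] at hi
      simp only [out]
      rw [if_pos hi.2]
      have h1 := hself i x
      have h2 := hother i y x (Ne.symm hxy)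
      have h2' : (fc L i y x : ℤ) ≤ m i := by exact_mod_cast h2
      have h1' : (fc L i x x : ℤ) = 1 := by exact_mod_cast h1
      cases hε' : ε i <;> cases fl <;> simp <;> linarith
    · simp only [U]
      rw [Finset.mul_sum, Finset.mul_sum]
      apply le_of_eq
      refine Finset.sum_congr rfl fun i hi => ?_
      rw [Finset.mem_compl, hK, Finset.mem_filter] at hi
      simp only [out]
      rw [if_neg (fun h => hi ⟨Finset.mem_univ _, h⟩)]
  have hY : ∀ fl sd, 2 * ∑ i, (fc L i (out fl sd i) y : ℤ) ≤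
      s - (if fl then -δ else δ) + 2 * W sd := by
    intro fl sd
    rw [← Finset.sum_add_sum_compl K, mul_add]
    apply add_le_add
    · rw [hs, hδ, Finset.mul_sum]
      have : (if fl then -∑ i ∈ K, (if ε i then ((m i : ℤ) - 1) else -((m i : ℤ) - 1)) else
          ∑ i ∈ K, (if ε i then ((m i : ℤ) - 1) else -((m i : ℤ) - 1))) =
          ∑ i ∈ K, (if fl then -(if ε i then ((m i : ℤ) - 1) else -((m i : ℤ) - 1)) else
            (if ε i then ((m i : ℤ) - 1) else -((m i : ℤ) - 1))) := by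
        cases fl
        · simp
        · simp [Finset.sum_neg_distrib]
      rw [this, ← Finset.sum_sub_distrib]
      refine Finset.sum_le_sum fun i hi => ?_
      rw [hK, Finset.mem_filter] at hi
      simp only [out]
      rw [if_pos hi.2]
      have h1 := hself i y
      have h2 := hother i x y hxy
      have h2' : (fc L i x y : ℤ) ≤ m i := by exact_mod_cast h2
      have h1' : (fc L i y y : ℤ) = 1 := by exact_mod_cast h1
      cases hε' : ε i <;> cases fl <;> simp <;> linarith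
    · simp only [W]
      rw [Finset.mul_sum, Finset.mul_sum]
      apply le_of_eq
      refine Finset.sum_congr rfl fun i hi => ?_
      rw [Finset.mem_compl, hK, Finset.mem_filter] at hi
      simp only [out]
      rw [if_neg (fun h => hi ⟨Finset.mem_univ _, h⟩)]
  -- choose the side
  obtain ⟨sd, hsd⟩ : ∃ sd, 2 * (U sd + W sd) ≤ Q := by
    by_contra hcon
    push Not at hcon
    have e1 := hcon true
    have e2 := hcon false
    linarith
  have hbadx : ∀ fl, 2 * ∑ i, (fc L i (out fl sd i) x : ℤ) ≤ s + Q → ¬ Bad L cap (out fl sd) x := by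
    intro fl h1 h2
    unfold Bad at h2
    have h3 : (cap : ℤ) < ∑ i, (fc L i (out fl sd i) x : ℤ) := by exact_mod_cast h2
    linarith
  have hbady : ∀ fl, 2 * ∑ i, (fc L i (out fl sd i) y : ℤ) ≤ s + Q → ¬ Bad L cap (out fl sd) y := by
    intro fl h1 h2
    unfold Bad at h2
    have h3 : (cap : ℤ) < ∑ i, (fc L i (out fl sd i) y : ℤ) := by exact_mod_cast h2
    linarith
  have hδ1 := (abs_le.mp (show |δ| ≤ |δ| from le_rfl))
  have hU := hU0 sd
  have hW := hW0 sd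
  rcases le_total (U sd) (W sd) with huw | huw
  · -- x gets more
    rcases le_total 0 δ with h0 | h0
    · rw [abs_of_nonneg h0] at hε
      refine ⟨out false sd, hout _ _, hbadx _ ?_, hbady _ ?_⟩
      · have := hX false sd
        simp only [Bool.false_eq_true, if_false] at this
        linarith
      · have := hY false sd
        simp only [Bool.false_eq_true, if_false] at this
        linarith
    · rw [abs_of_nonpos h0] at hε
      refine ⟨out true sd, hout _ _, hbadx _ ?_, hbady _ ?_⟩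
      · have := hX true sd
        simp only [if_true] at this
        linarith
      · have := hY true sd
        simp only [if_true] at this
        linarith
  · rcases le_total 0 δ with h0 | h0
    · rw [abs_of_nonneg h0] at hε
      refine ⟨out true sd, hout _ _, hbadx _ ?_, hbady _ ?_⟩
      · have := hX true sd
        simp only [if_true] at this
        linarith
      · have := hY true sd
        simp only [if_true] at this
        linarith
    · rw [abs_of_nonpos h0] at hε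
      refine ⟨out false sd, hout _ _, hbadx _ ?_, hbady _ ?_⟩
      · have := hX false sd
        simp only [Bool.false_eq_true, if_false] at this
        linarith
      · have := hY false sd
        simp only [Bool.false_eq_true, if_false] at this
        linarith

/-- the numerical condition implies equitable 2-choosability -/
theorem choosable_of (hnum : ∀ K : Finset ι, ∃ ε : ι → Bool,
      2 * |∑ i ∈ K, (if ε i then ((m i : ℤ) - 1) else -((m i : ℤ) - 1))| ≤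
        ∑ i ∈ Kᶜ, ((m i : ℤ) + 1)) : EquitablyChoosable 2 (starUnion m) := by
  intro L hL
  set cap : ℕ := (Fintype.card (Σ i : ι, Option (Fin (m i))) + 2 - 1) / 2 with hcap
  have hN : ∑ i, (m i + 1) ≤ 2 * cap := by
    rw [hcap, card_V]
    omega
  obtain ⟨o, ho, hgood⟩ : ∃ o : ι → ℕ, (∀ i, o i ∈ L ⟨i, none⟩) ∧ ∀ x, ¬ Bad L cap o x := by
    by_contra hcon
    push Not at hcon
    have hne : ∀ i, ∃ g, g ∈ L ⟨i, none⟩ := by
      intro i
      have : (L ⟨i, none⟩).Nonempty := by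
        rw [← Finset.card_pos, hL]; norm_num
      exact this
    choose o₁ h₁ using hne
    obtain ⟨x₁, b₁⟩ := hcon o₁ h₁
    obtain ⟨o₂, h₂, n1, -⟩ := two_colours L hL cap hN hnum x₁ (x₁ + 1) (by omega)
    obtain ⟨x₂, b₂⟩ := hcon o₂ h₂
    have h12 : x₁ ≠ x₂ := fun h => n1 (h ▸ b₂)
    obtain ⟨o₃, h₃, n1', n2'⟩ := two_colours L hL cap hN hnum x₁ x₂ h12
    obtain ⟨x₃, b₃⟩ := hcon o₃ h₃
    have h13 : x₁ ≠ x₃ := fun h => n1' (h ▸ b₃)
    have h23 : x₂ ≠ x₃ := fun h => n2' (h ▸ b₃)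
    exact not_three L hL cap hN hcon o₁ o₂ o₃ h₁ h₂ h₃ x₁ x₂ x₃ b₁ b₂ b₃ h12 h13 h23
  obtain ⟨ψ, hψ, hcls⟩ := extend L hL o cap hN (fun x => not_lt.mp (hgood x))
  refine ⟨ψ, ?_, ?_, hcls⟩
  · rintro ⟨i, _ | j⟩
    · rw [hψ.1 i]; exact ho i
    · exact (hψ.2 i j).1
  · intro u v huv
    rw [adj_iff] at huv
    obtain ⟨i, j, ⟨rfl, rfl⟩ | ⟨rfl, rfl⟩⟩ := huv
    · rw [hψ.1 i]
      exact Ne.symm (hψ.2 i j).2
    · rw [hψ.1 i]
      exact (hψ.2 i j).2

end Pool.Agent.Q258.EqStar
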